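import Pool.Agent.helper7.AL.SpecL

set_option autoImplicit false

namespace Pool.Agent.LD

open Finset Pool.Agent.helper85.FC Pool.Agent.AT

theorem LHZ : LHZ_stmt := by
  classical
  intro k K Q s H hK hQ hH hcl hadm
  have hne : ∀ i, (H i).Nonempty := fun i => card_pos.1 (by rw [hH i]; omega)
  choose y hy using hne
  have hyP : y ∈ Fintype.piFinset H := Fintype.mem_piFinset.2 hy
  have key : ∀ p : ℕ, p.Prime → ∃ n : ℕ, ∀ i, ∀ x ∈ H i, ¬ (p : ℤ) ∣ s i * n + x := by
    intro p hp
    by_cases hpk : p ≤ k * K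
    · obtain ⟨n, hn⟩ := hadm y hyP p hp
      refine ⟨n, ?_⟩
      intro i x hx hd
      apply hn i
      have h1 := hcl p hp hpk i x hx (y i) (hy i)
      have h2 := dvd_sub hd h1
      have e : (s i : ℤ) * n + x - (x - y i) = s i * n + y i := by ring
      rw [e] at h2
      exact h2
    · have hpk' : k * K < p := not_le.1 hpk
      have hpz : Prime (p : ℤ) := Nat.prime_iff_prime_int.1 hp
      have hsx : ∀ i, ∀ x ∈ H i, (p : ℤ) ∣ s i → ¬ (p : ℤ) ∣ x := by
        intro i x hx hsi hdx
        have hP2 : Function.update y i x ∈ Fintype.piFinset H := by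
          rw [Fintype.mem_piFinset]
          intro j
          by_cases hj : j = i
          · subst hj
            rw [Function.update_self]
            exact hx
          · rw [Function.update_of_ne hj]
            exact hy j
        obtain ⟨n, hn⟩ := hadm _ hP2 p hp
        apply hn i
        show (p : ℤ) ∣ (s i : ℤ) * n + Function.update y i x i
        rw [Function.update_self]
        exact dvd_add (hsi.mul_right _) hdx
      obtain ⟨bd, hbd⟩ : ∃ bd : Fin k → ℤ → Finset ℕ, ∀ i x n, n ∈ bd i x ↔ n < p ∧ (p : ℤ) ∣ (s i : ℤ) * (n : ℤ) + x := by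
        refine ⟨fun i x => (range p).filter (fun n : ℕ => (p : ℤ) ∣ (s i : ℤ) * (n : ℤ) + x), ?_⟩
        intro i x n
        rw [mem_filter, mem_range]
      have hone : ∀ i, ∀ x ∈ H i, #(bd i x) ≤ 1 := by
        intro i x hx
        rw [card_le_one]
        intro a ha b hb
        rw [hbd] at ha hb
        have h1 := dvd_sub ha.2 hb.2
        have e : (s i : ℤ) * a + x - (s i * b + x) = s i * (a - b) := by ring
        rw [e] at h1
        rcases hpz.dvd_or_dvd h1 with h2 | h2
        · exfalso
          have h3 := dvd_sub ha.2 (h2.mul_right (a : ℤ))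
          have e2 : (s i : ℤ) * a + x - s i * a = x := by ring
          rw [e2] at h3
          exact hsx i x hx h2 h3
        · have h3 : ((a : ℤ) - b).natAbs < p := by omega
          have h4 := Int.eq_zero_of_dvd_of_natAbs_lt_natAbs h2 (by rw [Int.natAbs_natCast]; exact h3)
          omega
      have hbad : #((univ : Finset (Fin k)).biUnion fun i => (H i).biUnion fun x => bd i x) ≤ k * K := by
        have h1 : ∀ i ∈ (univ : Finset (Fin k)), #((H i).biUnion fun x => bd i x) ≤ K := by
          intro i _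
          have h2 := card_biUnion_le_card_mul (H i) (fun x => bd i x) 1 (hone i)
          rw [hH i, mul_one] at h2
          exact h2
        have h3 := card_biUnion_le_card_mul (univ : Finset (Fin k)) _ K h1
        rw [card_univ, Fintype.card_fin] at h3
        exact h3
      have hlt : #((univ : Finset (Fin k)).biUnion fun i => (H i).biUnion fun x => bd i x) < #(range p) := by
        rw [card_range]
        exact lt_of_le_of_lt hbad hpk'
      obtain ⟨n, hn1, hn2⟩ := exists_mem_notMem_of_card_lt_card hlt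
      refine ⟨n, ?_⟩
      intro i x hx hd
      apply hn2
      rw [mem_biUnion]
      refine ⟨i, mem_univ _, ?_⟩
      rw [mem_biUnion]
      exact ⟨x, hx, (hbd i x n).2 ⟨mem_range.1 hn1, hd⟩⟩
  obtain ⟨r, hr⟩ : ∃ r : ℕ → ℕ, ∀ p : ℕ, p.Prime → ∀ i, ∀ x ∈ H i, ¬ (p : ℤ) ∣ s i * (r p : ℤ) + x := by
    choose r hr using key
    exact ⟨fun p => if h : p.Prime then r p h else 0, fun p hp => by simp only [hp, dif_pos]; exact hr p hp⟩
  obtain ⟨n₀, hn₀⟩ := Nat.chineseRemainderOfFinset r id Q.primeFactors (fun p hp => (Nat.prime_of_mem_primeFactors hp).ne_zero) (by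
    intro a ha b hb hab
    exact (Nat.coprime_primes (Nat.prime_of_mem_primeFactors ha) (Nat.prime_of_mem_primeFactors hb)).2 hab)
  refine ⟨n₀, ?_⟩
  intro p hp hpQ i x hx hd
  have h1 := hn₀ p (Nat.mem_primeFactors.2 ⟨hp, hpQ, hQ.ne'⟩)
  have h2 : (p : ℤ) ∣ (r p : ℤ) - n₀ := (Nat.modEq_iff_dvd.1 h1)
  apply hr p hp i x hx
  have e : (s i : ℤ) * (r p : ℤ) + x = (s i * (n₀ : ℤ) + x) + s i * ((r p : ℤ) - n₀) := by ring
  rw [e]
  exact dvd_add hd (h2.mul_left _)

end Pool.Agent.LD
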