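import Pool.Agent.helper7.AL.SpecG

set_option autoImplicit false

namespace Pool.Agent.AL

open Finset Pool.Agent.helper85.FC Pool.Agent.helper11.MK

lemma GCT_lo_pos (x y : ℕ) (hx : 0 < x) : 1 ≤ lo x y :=
  Nat.div_pos (Nat.le_of_dvd hx (Nat.gcd_dvd_left x y)) (Nat.gcd_pos_of_pos_left y hx)

lemma GCT_lo_le (x y : ℕ) : lo x y ≤ x := Nat.div_le_self _ _

lemma GCT_diff (D κ H a' b' : ℕ) (z z' : ℤ) (hz : |z| ≤ D) (hz' : |z'| ≤ D) (h : a' + b' ≤ κ * H) :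
    |(a' : ℤ) * z - b' * z'| ≤ D * κ * H := by
  have h0 : ((a' : ℤ) + b') ≤ κ * H := by exact_mod_cast h
  have h1 : |(a' : ℤ) * z - b' * z'| ≤ (a' : ℤ) * |z| + b' * |z'| := by
    refine (abs_sub _ _).trans ?_
    rw [abs_mul, abs_mul, Nat.abs_cast, Nat.abs_cast]
  have h2 : (a' : ℤ) * |z| ≤ a' * D := mul_le_mul_of_nonneg_left hz (by positivity)
  have h3 : (b' : ℤ) * |z'| ≤ b' * D := mul_le_mul_of_nonneg_left hz' (by positivity)
  have h4 : ((a' : ℤ) + b') * D ≤ κ * H * D := mul_le_mul_of_nonneg_right h0 (by positivity)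
  have e : (κ : ℤ) * H * D = D * κ * H := by ring
  have e2 : ((a' : ℤ) + b') * D = a' * D + b' * D := by ring
  linarith

lemma GCT_sep (C D W H κ t t' : ℤ) (x x' y y' : ℤ) (hW : W = C + 3 * D + 1) (hD : 0 ≤ D) (hH : 1 ≤ H) (hκ : 1 ≤ κ) (hC : 0 ≤ C)
    (ht : t + 1 ≤ t') (h1 : x ≤ (D + t * W) * H + C * H) (h2 : (D + t' * W) * H < x') (h3 : y - κ * x ≤ D * κ * H)
    (h4 : -(D * κ * H) ≤ y' - κ * x') : y < y' := by
  have g5 : W * H ≤ (t' - t) * (W * H) := by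
    have h0 : 0 ≤ W * H := by
      apply mul_nonneg
      · rw [hW]; linarith
      · linarith
    have h5 : 0 ≤ (t' - t - 1) * (W * H) := mul_nonneg (by linarith) h0
    linarith
  have g6 : (3 * D + 1) * H < x' - x := by
    have e1 : W * H = C * H + (3 * D + 1) * H := by rw [hW]; ring
    have e2 : (t' - t) * (W * H) = (D + t' * W) * H - (D + t * W) * H := by ring
    linarith
  have g7 : κ * ((3 * D + 1) * H) ≤ κ * (x' - x) := mul_le_mul_of_nonneg_left g6.le (by linarith)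
  have g8 : 0 < κ * ((D + 1) * H) := by
    apply mul_pos (by linarith)
    apply mul_pos (by linarith) (by linarith)
  have e3 : κ * ((3 * D + 1) * H) = 2 * (D * κ * H) + κ * ((D + 1) * H) := by ring
  have e4 : κ * (x' - x) = κ * x' - κ * x := by ring
  linarith

lemma GCT_bd (C D W M H κ Q t T X : ℤ) (x y : ℤ) (hW : W = C + 3 * D + 1) (hM : M = C + 5 * D + 1) (hD : 0 ≤ D) (hH : 1 ≤ H) (hκ : 1 ≤ κ)
    (hκQ : κ ≤ Q) (hC : 0 ≤ C) (ht0 : 0 ≤ t) (ht : t + 1 ≤ T) (h1 : x ≤ (D + t * W) * H + C * H) (h2 : (D + t * W) * H < x)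
    (h3 : y - κ * x ≤ D * κ * H) (h4 : -(D * κ * H) ≤ y - κ * x) (hX : Q * M * H * T ≤ X) : |y| ≤ X := by
  have hW0 : 0 ≤ W := by rw [hW]; linarith
  have hx0 : 0 ≤ x := by
    have : 0 ≤ (D + t * W) * H := mul_nonneg (add_nonneg hD (mul_nonneg ht0 hW0)) (by linarith)
    linarith
  have hκx : 0 ≤ κ * x := mul_nonneg (by linarith) hx0
  have hDκ : D * κ * H = κ * (D * H) := by ring
  have g5 : |y| ≤ κ * (x + D * H) := by
    rw [abs_le, mul_add]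
    constructor <;> linarith
  have hDH : 0 ≤ D * H := mul_nonneg hD (by linarith)
  have g6 : κ * (x + D * H) ≤ Q * (x + D * H) := mul_le_mul_of_nonneg_right hκQ (by linarith)
  have e1 : (D + t * W) * H + C * H + D * H ≤ (t + 1) * (M * H) := by
    have p1 : 0 ≤ t * (D * H) := mul_nonneg ht0 hDH
    have e : (t + 1) * (M * H) = (D + t * W) * H + C * H + D * H + (2 * (t * (D * H)) + 3 * (D * H) + H) := by rw [hW, hM]; ring
    linarith
  have hMH : 0 ≤ M * H := mul_nonneg (by rw [hM]; linarith) (by linarith)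
  have e2 : (t + 1) * (M * H) ≤ T * (M * H) := mul_le_mul_of_nonneg_right ht hMH
  have g8 : Q * (x + D * H) ≤ Q * (T * (M * H)) := mul_le_mul_of_nonneg_left (by linarith) (by linarith)
  have e3 : Q * (T * (M * H)) = Q * M * H * T := by ring
  linarith

theorem GCT : GCT_stmt := by
  classical
  intro a₀ b₀ C D ha₀ hb₀ hyp
  obtain ⟨Q, hQ⟩ : ∃ Q, Q = a₀ * b₀ := ⟨_, rfl⟩
  obtain ⟨M, hM⟩ : ∃ M, M = C + 5 * D + 1 := ⟨_, rfl⟩
  have hQ1 : 1 ≤ Q := by rw [hQ]; exact Nat.mul_pos ha₀ hb₀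
  refine ⟨6 * Q ^ 3 * M, ?_⟩
  intro a b ha hb hab X hX
  have hypab := hyp a b ha hb hab
  obtain ⟨H, hH⟩ : ∃ H, H = lo (a * a₀) (b * b₀) + lo (b * b₀) (a * a₀) := ⟨_, rfl⟩
  have hH1 : 1 ≤ H := by
    have := GCT_lo_pos (a * a₀) (b * b₀) (Nat.mul_pos ha ha₀)
    omega
  have hHQ : H ≤ Q * (a + b) := by
    have h1 := GCT_lo_le (a * a₀) (b * b₀)
    have h2 := GCT_lo_le (b * b₀) (a * a₀)
    have h3 : a * a₀ ≤ Q * a := by
      rw [hQ]
      calc a * a₀ = a₀ * 1 * a := by ring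
        _ ≤ a₀ * b₀ * a := Nat.mul_le_mul_right _ (Nat.mul_le_mul_left _ hb₀)
    have h4 : b * b₀ ≤ Q * b := by
      rw [hQ]
      calc b * b₀ = 1 * b₀ * b := by ring
        _ ≤ a₀ * b₀ * b := Nat.mul_le_mul_right _ (Nat.mul_le_mul_right _ ha₀)
    rw [hH, Nat.mul_add]
    omega
  obtain ⟨W, hW⟩ : ∃ W, W = C + 3 * D + 1 := ⟨_, rfl⟩
  have hHc : ((lo (a * a₀) (b * b₀) : ℤ) + lo (b * b₀) (a * a₀)) = (H : ℤ) := by rw [hH]; push_cast; ring
  have key : ∀ t : ℕ, ∃ (c₁ : ℤ) (j κ : ℕ) (c : ℤ), ((D : ℤ) + t * W) * H < c₁ ∧ c₁ ≤ ((D : ℤ) + t * W) * H + C * H ∧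
      j ≤ 2 ∧ 1 ≤ κ ∧ κ ≤ Q ∧ |c - κ * c₁| ≤ D * κ * H ∧ TrueCase (lo (a * a₀ ^ j) (b * b₀ ^ j)) (lo (b * b₀ ^ j) (a * a₀ ^ j)) c := by
    intro t
    have hu : (D : ℤ) * ((lo (a * a₀) (b * b₀) : ℤ) + lo (b * b₀) (a * a₀)) ≤ ((D : ℤ) + t * W) * H := by
      rw [hHc]
      have : (0 : ℤ) ≤ t * W * H := by positivity
      nlinarith
    obtain ⟨c₁, hc1, hc2, j, hj, κ, hκ1, hκ2, hle, z, z', hz, hz', htc⟩ := hypab _ hu
    rw [hHc] at hc2
    rw [← hH] at hle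
    refine ⟨c₁, j, κ, _, hc1, hc2, hj, hκ1, by rw [hQ]; exact hκ2, ?_, htc⟩
    have h5 := GCT_diff D κ H _ _ z z' hz hz' hle
    have e : (κ : ℤ) * c₁ + lo (a * a₀ ^ j) (b * b₀ ^ j) * z - lo (b * b₀ ^ j) (a * a₀ ^ j) * z' - κ * c₁ =
        lo (a * a₀ ^ j) (b * b₀ ^ j) * z - lo (b * b₀ ^ j) (a * a₀ ^ j) * z' := by ring
    rw [e]
    exact h5
  choose c₁ j κ c h1 h2 h3 h4 h5 h6 h7 using key
  obtain ⟨T, hT⟩ : ∃ T, T = X / (Q * M * H) := ⟨_, rfl⟩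
  have hM1 : 1 ≤ M := by omega
  have hQMH : 0 < Q * M * H := Nat.mul_pos (Nat.mul_pos hQ1 hM1) hH1
  have hQMHX : Q * M * H ≤ X := by
    refine le_trans ?_ hX
    calc Q * M * H ≤ Q * M * (Q * (a + b)) := Nat.mul_le_mul_left _ hHQ
      _ = 1 * (Q ^ 2 * M * (a + b)) := by ring
      _ ≤ (6 * Q) * (Q ^ 2 * M * (a + b)) := Nat.mul_le_mul_right _ (by omega)
      _ = 6 * Q ^ 3 * M * (a + b) := by ring
  have hT1 : 1 ≤ T := by
    rw [hT]
    exact Nat.div_pos hQMHX hQMH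
  have hTX : Q * M * H * T ≤ X := by
    rw [hT]
    exact Nat.mul_div_le X _
  have hXT : X ≤ 2 * (Q * M * H * T) := by
    have h8 := Nat.lt_mul_div_succ X hQMH
    rw [← hT] at h8
    have h9 : Q * M * H * (T + 1) ≤ Q * M * H * (2 * T) := Nat.mul_le_mul_left _ (by omega)
    calc X ≤ Q * M * H * (T + 1) := h8.le
      _ ≤ Q * M * H * (2 * T) := h9
      _ = 2 * (Q * M * H * T) := by ring
  -- pigeonhole
  have hmaps : ∀ t ∈ range T, (j t, κ t) ∈ range 3 ×ˢ Icc 1 Q := by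
    intro t _
    rw [mem_product, mem_range, mem_Icc]
    have := h3 t
    exact ⟨by show j t < 3; omega, h4 t, h5 t⟩
  have hne : (range 3 ×ˢ Icc 1 Q).Nonempty := ⟨(0, 1), by
    rw [mem_product, mem_range, mem_Icc]
    exact ⟨by norm_num, le_refl _, hQ1⟩⟩
  obtain ⟨y, hy, hmax⟩ := exists_max_image (range 3 ×ˢ Icc 1 Q) (fun y => #{t ∈ range T | (j t, κ t) = y}) hne
  have hcount : T ≤ #{t ∈ range T | (j t, κ t) = y} * (3 * Q) := by
    have h8 := card_le_mul_card_image_of_maps_to hmaps _ hmax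
    rw [card_range, card_product, card_range, Nat.card_Icc, Nat.add_sub_cancel] at h8
    exact h8
  obtain ⟨j0, κ0⟩ := y
  obtain ⟨Fb, hFb⟩ : ∃ Fb, Fb = ({t ∈ range T | (j t, κ t) = (j0, κ0)} : Finset ℕ) := ⟨_, rfl⟩
  rw [← hFb] at hcount
  have hFm : ∀ t ∈ Fb, t < T ∧ j t = j0 ∧ κ t = κ0 := by
    intro t ht
    rw [hFb, mem_filter, mem_range, Prod.mk.injEq] at ht
    exact ⟨ht.1, ht.2.1, ht.2.2⟩
  have hj0 : j0 ≤ 2 := by
    rw [mem_product, mem_range] at hy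
    have := hy.1
    simp only at this
    omega
  refine ⟨j0, hj0, ?_⟩
  -- separation
  have hWz : (W : ℤ) = C + 3 * D + 1 := by rw [hW]; push_cast; ring
  have hMz : (M : ℤ) = C + 5 * D + 1 := by rw [hM]; push_cast; ring
  have hHz : (1 : ℤ) ≤ H := by exact_mod_cast hH1
  have hDz : (0 : ℤ) ≤ D := Int.natCast_nonneg _
  have hCz : (0 : ℤ) ≤ C := Int.natCast_nonneg _
  have hsep : ∀ t ∈ Fb, ∀ t' ∈ Fb, t < t' → c t < c t' := by
    intro t ht t' ht' htt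
    obtain ⟨-, -, hk⟩ := hFm t ht
    obtain ⟨-, -, hk'⟩ := hFm t' ht'
    have g1 := abs_le.1 (h6 t)
    have g2 := abs_le.1 (h6 t')
    have hκ0 : (1 : ℤ) ≤ κ0 := by
      have := h4 t
      rw [hk] at this
      exact_mod_cast this
    rw [hk] at g1
    rw [hk'] at g2
    have htz : (t : ℤ) + 1 ≤ t' := by exact_mod_cast htt
    exact GCT_sep C D W H κ0 t t' (c₁ t) (c₁ t') (c t) (c t') hWz hDz hHz hκ0 hCz htz (h2 t) (h1 t') g1.2 g2.1
  have hinj : Set.InjOn c (Fb : Set ℕ) := by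
    intro t ht t' ht' he
    rcases lt_trichotomy t t' with h | h | h
    · exact absurd he (hsep t ht t' ht' h).ne
    · exact h
    · exact absurd he (hsep t' ht' t ht h).ne'
  have hXz : (Q : ℤ) * M * H * T ≤ X := by exact_mod_cast hTX
  have hbound : ∀ t ∈ Fb, |c t| ≤ X := by
    intro t ht
    obtain ⟨htT, -, hk⟩ := hFm t ht
    have g1 := abs_le.1 (h6 t)
    have hκQ : (κ t : ℤ) ≤ Q := by exact_mod_cast h5 t
    have hκ1 : (1 : ℤ) ≤ κ t := by exact_mod_cast h4 t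
    have htz : (t : ℤ) + 1 ≤ T := by exact_mod_cast htT
    exact GCT_bd C D W M H (κ t) Q t T X (c₁ t) (c t) hWz hMz hDz hHz hκ1 hκQ hCz (Int.natCast_nonneg _) htz (h2 t) (h1 t) g1.2 g1.1 hXz
  have hfin : {c : ℤ | |c| ≤ X ∧ TrueCase (lo (a * a₀ ^ j0) (b * b₀ ^ j0)) (lo (b * b₀ ^ j0) (a * a₀ ^ j0)) c}.Finite := by
    apply (Set.finite_Icc (-(X : ℤ)) X).subset
    intro x hx
    exact abs_le.1 hx.1
  have hcard : #Fb ≤ {c : ℤ | |c| ≤ X ∧ TrueCase (lo (a * a₀ ^ j0) (b * b₀ ^ j0)) (lo (b * b₀ ^ j0) (a * a₀ ^ j0)) c}.ncard := by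
    have h8 : #(Fb.image c) = #Fb := card_image_of_injOn hinj
    rw [← h8, ← Set.ncard_coe_finset]
    apply Set.ncard_le_ncard _ hfin
    intro x hx
    rw [mem_coe, mem_image] at hx
    obtain ⟨t, ht, rfl⟩ := hx
    have hjt := (hFm t ht).2.1
    have h9 := h7 t
    rw [hjt] at h9
    exact ⟨hbound t ht, h9⟩
  calc X ≤ 2 * (Q * M * H * T) := hXT
    _ ≤ 2 * (Q * M * (Q * (a + b)) * (#Fb * (3 * Q))) := by gcongr
    _ = 6 * Q ^ 3 * M * (a + b) * #Fb := by ring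
    _ ≤ _ := Nat.mul_le_mul_left _ hcard

end Pool.Agent.AL
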