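import Pool.Agent.helper7.AL.SpecG

set_option autoImplicit false

namespace Pool.Agent.AL

open Finset Pool.Agent.helper85.FC Pool.Agent.helper11.MK

lemma GPI_class (k P : ℕ) (hP : 1 ≤ P) (X : Finset ℤ) (hX : #X = k * P) :
    ∃ (α : ℤ) (X' : Finset ℤ), X' ⊆ X ∧ #X' = k ∧ ∀ x ∈ X', (P : ℤ) ∣ x - α := by
  classical
  have hP0 : (0 : ℤ) < P := by exact_mod_cast hP
  have hmaps : ∀ x ∈ X, x % (P : ℤ) ∈ Ico (0 : ℤ) P := by
    intro x _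
    rw [mem_Ico]
    exact ⟨Int.emod_nonneg _ hP0.ne', Int.emod_lt_of_pos _ hP0⟩
  have hne : (Ico (0 : ℤ) P).Nonempty := ⟨0, by rw [mem_Ico]; exact ⟨le_refl _, hP0⟩⟩
  have hcard : #(Ico (0 : ℤ) P) * k ≤ #X := by
    rw [Int.card_Ico, sub_zero, Int.toNat_natCast, hX, Nat.mul_comm]
  obtain ⟨α, -, hα⟩ := exists_le_card_fiber_of_mul_le_card_of_maps_to hmaps hne hcard
  obtain ⟨X', hX', hc⟩ := exists_subset_card_eq hα
  refine ⟨α, X', hX'.trans (filter_subset _ _), hc, ?_⟩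
  intro x hx
  have h1 := (mem_filter.mp (hX' hx)).2
  rw [← h1]
  exact Int.dvd_self_sub_emod

theorem GPI : GPI_stmt := by
  classical
  intro k P a₀ b₀ hk hP hT
  unfold TCG at hT
  push Not at hT
  obtain ⟨X, Y, hX, hY, hXY, hbad⟩ := hT
  obtain ⟨α, X', hX'1, hX'2, hX'3⟩ := GPI_class k P hP X hX
  obtain ⟨β, Y', hY'1, hY'2, hY'3⟩ := GPI_class k P hP Y hY
  exact ⟨X', Y', α, β, hX'2, hY'2, hX'3, hY'3, fun x hx y hy =>
    ⟨hXY x (hX'1 hx) y (hY'1 hy), hbad x (hX'1 hx) y (hY'1 hy)⟩⟩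

end Pool.Agent.AL
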