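import Pool.Agent.helper7.AL.SpecL

set_option autoImplicit false

namespace Pool.Agent.LD

open Finset Pool.Agent.helper85.FC Pool.Agent.AT

theorem LCO : LCO_stmt := by
  classical
  intro ι _ A B P t₀ hA hP
  choose e he using hP
  obtain ⟨g, hg⟩ : ∃ g : ℕ → ι, ∀ t, t₀ ≤ t → P (g t) (A (g t) * t + B (g t)) := by
    refine ⟨fun t => if h : t₀ ≤ t then e t h else e t₀ le_rfl, ?_⟩
    intro t ht
    simp only [ht, dif_pos]
    exact he t ht
  have hι : (univ : Finset ι).Nonempty := ⟨g 0, mem_univ _⟩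
  have hc0 : 0 < Fintype.card ι := Fintype.card_pos_iff.2 ⟨g 0⟩
  have h1 : ∀ T : ℕ, ∃ i, T ≤ #{t ∈ Ico t₀ (t₀ + T) | g t = i} * Fintype.card ι := by
    intro T
    obtain ⟨i, -, hi⟩ := exists_max_image (univ : Finset ι) (fun i => #{t ∈ Ico t₀ (t₀ + T) | g t = i}) hι
    refine ⟨i, ?_⟩
    have h := card_le_mul_card_image_of_maps_to (s := Ico t₀ (t₀ + T)) (t := (univ : Finset ι)) (f := g) (fun t _ => mem_univ _)
      (#{t ∈ Ico t₀ (t₀ + T) | g t = i}) hi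
    rw [Nat.card_Ico, Nat.add_sub_cancel_left] at h
    exact h
  choose i hi using h1
  obtain ⟨e₀, he₀⟩ := Finite.exists_infinite_fiber i
  have h2 : ∀ N : ℕ, ∃ T, N < T ∧ i T = e₀ := by
    intro N
    obtain ⟨T, hT, hNT⟩ := (Set.infinite_coe_iff.1 he₀).exists_gt N
    exact ⟨T, hNT, hT⟩
  obtain ⟨D, hD⟩ : ∃ D : ℕ, |A e₀| + |B e₀| + 1 ≤ (D : ℤ) := ⟨(|A e₀| + |B e₀| + 1).toNat, Int.self_le_toNat _⟩
  have hAp := abs_nonneg (A e₀)
  have hBp := abs_nonneg (B e₀)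
  have hD1 : 1 ≤ D := by
    have : (1 : ℤ) ≤ D := by linarith
    exact_mod_cast this
  have hDr : (1 : ℝ) ≤ D := by exact_mod_cast hD1
  have hcr : (0 : ℝ) < Fintype.card ι := by exact_mod_cast hc0
  refine ⟨e₀, 1 / (Fintype.card ι * D * (t₀ + 1)), by positivity, ?_⟩
  intro X₀
  obtain ⟨T, hT1, hT2⟩ := h2 (⌈X₀⌉₊)
  have hT0 : 1 ≤ T := by omega
  have hTr : (1 : ℝ) ≤ T := by exact_mod_cast hT0
  have ht0r : (0 : ℝ) ≤ t₀ := Nat.cast_nonneg _
  refine ⟨(D : ℝ) * (t₀ + T), ?_, ?_⟩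
  · have h3 : X₀ ≤ T := (Nat.le_ceil X₀).trans (by exact_mod_cast hT1.le)
    nlinarith
  · have hfin : {c : ℤ | |(c : ℝ)| ≤ (D : ℝ) * (t₀ + T) ∧ P e₀ c}.Finite := by
      apply (Set.finite_Icc (-((D * (t₀ + T) : ℕ) : ℤ)) ((D * (t₀ + T) : ℕ) : ℤ)).subset
      intro c hc
      have h4 : |(c : ℝ)| ≤ (((D * (t₀ + T) : ℕ) : ℤ) : ℝ) := by
        have := hc.1
        push_cast
        exact this
      have h5 : |c| ≤ ((D * (t₀ + T) : ℕ) : ℤ) := by exact_mod_cast h4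
      exact abs_le.1 h5
    have hinj : Set.InjOn (fun t : ℕ => A e₀ * t + B e₀) (({t ∈ Ico t₀ (t₀ + T) | g t = e₀} : Finset ℕ) : Set ℕ) := by
      intro a _ b _ hab
      have h4 : A e₀ * (a : ℤ) = A e₀ * (b : ℤ) := by
        simp only at hab
        linarith
      have h5 := mul_left_cancel₀ (hA e₀) h4
      exact_mod_cast h5
    have hcard : #{t ∈ Ico t₀ (t₀ + T) | g t = e₀} ≤ {c : ℤ | |(c : ℝ)| ≤ (D : ℝ) * (t₀ + T) ∧ P e₀ c}.ncard := by
      rw [← card_image_of_injOn hinj, ← Set.ncard_coe_finset]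
      apply Set.ncard_le_ncard _ hfin
      intro x hx
      rw [mem_coe, mem_image] at hx
      obtain ⟨t, ht, rfl⟩ := hx
      rw [mem_filter, mem_Ico] at ht
      obtain ⟨⟨ht1, ht2⟩, hgt⟩ := ht
      have h6 := hg t ht1
      rw [hgt] at h6
      refine ⟨?_, h6⟩
      have h7 : |A e₀ * (t : ℤ) + B e₀| ≤ (D * (t₀ + T) : ℕ) := by
        have htz : (t : ℤ) ≤ t₀ + T := by exact_mod_cast ht2.le
        have h1T : (1 : ℤ) ≤ t₀ + T := by
          have : (1 : ℤ) ≤ T := by exact_mod_cast hT0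
          have h0 : (0 : ℤ) ≤ t₀ := Int.natCast_nonneg _
          linarith
        have h8 : |A e₀ * (t : ℤ) + B e₀| ≤ |A e₀| * t + |B e₀| := by
          refine (abs_add_le _ _).trans ?_
          rw [abs_mul, Nat.abs_cast]
        have h9 : |A e₀| * (t : ℤ) ≤ |A e₀| * (t₀ + T) := mul_le_mul_of_nonneg_left htz hAp
        have h10 : |B e₀| * 1 ≤ |B e₀| * ((t₀ : ℤ) + T) := mul_le_mul_of_nonneg_left h1T hBp
        have h11 : (|A e₀| + |B e₀|) * ((t₀ : ℤ) + T) ≤ D * (t₀ + T) := mul_le_mul_of_nonneg_right (by linarith) (by linarith)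
        push_cast
        linarith
      have h12 : ((|A e₀ * (t : ℤ) + B e₀| : ℤ) : ℝ) ≤ (((D * (t₀ + T) : ℕ) : ℤ) : ℝ) := by exact_mod_cast h7
      rw [Int.cast_abs] at h12
      refine h12.trans (le_of_eq ?_)
      push_cast
      ring
    have h13 := hi T
    rw [hT2] at h13
    have h14 : (T : ℝ) ≤ #{t ∈ Ico t₀ (t₀ + T) | g t = e₀} * Fintype.card ι := by exact_mod_cast h13
    have h15 : (#{t ∈ Ico t₀ (t₀ + T) | g t = e₀} : ℝ) ≤ {c : ℤ | |(c : ℝ)| ≤ (D : ℝ) * (t₀ + T) ∧ P e₀ c}.ncard := by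
      exact_mod_cast hcard
    refine le_trans ?_ h15
    have e1 : 1 / ((Fintype.card ι : ℝ) * D * (t₀ + 1)) * (D * (t₀ + T)) = (t₀ + T) / (Fintype.card ι * (t₀ + 1)) := by
      field_simp
    rw [e1, div_le_iff₀ (by positivity)]
    have h16 : (t₀ : ℝ) + T ≤ T * (t₀ + 1) := by nlinarith
    have h17 : (T : ℝ) * (t₀ + 1) ≤ (#{t ∈ Ico t₀ (t₀ + T) | g t = e₀} * Fintype.card ι) * (t₀ + 1) :=
      mul_le_mul_of_nonneg_right h14 (by positivity)
    linarith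

end Pool.Agent.LD
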